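import Mathlib
import Pool.Agent.Run7.h318.SF.U2
import Pool.Agent.Run7.h318.SF.P1
import Pool.Agent.Run7.h318.DI.C

/-!
# The 2-part of the defect of exactness for elliptic curves with full rational 2-torsion

For an elliptic curve `X = W` over `ℚ` the complex `F¹(X)^ → F¹_A(X)^ → Hom(Br(X) / Br₀(X), ℚ/ℤ)` of the
problem is exact if and only if the maximal divisible subgroup `D` of the Tate-Shafarevich group `Ш(W)`
is zero, and its homology is the Tate module of `D` (Cassels, Tate; this is not used). Its 2-part is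
isomorphic to `ℤ_2 ^ r`, where `2 ^ r` is the order of `D[2]`. We bound this order on average over the
elliptic curves over `ℚ` with full rational 2-torsion.

`Ш(W)` is defined in `Pool/Agent/W262/SH/Stm.lean` with continuous cocycles of the absolute Galois
group of `ℚ` which are locally trivial at all the primes and at infinity. `D[2]` consists of the elements
`s_1` of the sequences `0 = s_0, s_1, s_2, …` in `Ш(W)` with `2 s_(n+1) = s_n` (the elements of the Tate module
`T_2 Ш(W)`).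

Theorem. For the elliptic curves over `ℚ` with full rational 2-torsion `D[2]` is finite. The average
of `(2 ^ rank * #D[2]) ^ 2` (the exponent `rank + r` is the corank of the Selmer group of `W[2 ^ ∞]`) is
bounded over all these curves in the ordering by height, and also in the ordering by the absolute value
of the minimal discriminant. All its moments are bounded for the products of twists of fixed curves by
the values of polynomials, also in short intervals.
-/

set_option autoImplicit false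

namespace Pool.Agent.Results.MP_f80667_ag.DivisiblePartOfShaOnAverage

open Finset Filter Polynomial

open Pool.Agent.W262.SH (Sha)

open scoped Classical

/-! ### The divisible part of the Tate-Shafarevich group -/

/-- `s` is an element of `T_2 Ш(W)`: a sequence `0 = s_0, s_1, s_2, …` in `Ш(W)` with `2 s_(n+1) = s_n` -/
def IsTate (W : WeierstrassCurve ℚ) (s : ℕ → Sha W) : Prop :=
  s 0 = 0 ∧ ∀ n, s (n + 1) + s (n + 1) = s n

/-- `D[2]`: the elements of order at most two of the maximal divisible subgroup of `Ш(W)` -/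
def DivTwo (W : WeierstrassCurve ℚ) : Set (Sha W) := {c | ∃ s, IsTate W s ∧ s 1 = c}

/-- the order of `D[2]` -/
noncomputable def defect (W : WeierstrassCurve ℚ) : ℕ := Nat.card (DivTwo W)

/-- `2 ^ rank * #D[2]` -/
noncomputable def size (W : WeierstrassCurve ℚ) : ℕ :=
  2 ^ Module.finrank ℤ W.toAffine.Point * defect W

/-- `D[2]` is finite, its elements are killed by two, and it has only one element if and only if
`T_2 Ш(W)` is zero. -/
structure Good (W : WeierstrassCurve ℚ) : Prop where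
  finite : (DivTwo W).Finite
  two : ∀ c ∈ DivTwo W, c + c = 0
  trivial_iff : defect W = 1 ↔ ∀ s, IsTate W s → s = 0

/-! ### The families -/

/-- The equation `y ^ 2 = x ^ 3 + A x + B` with integers `A`, `B` defines an elliptic curve, and
there is no prime `p` with `p ^ 4 ∣ A` and `p ^ 6 ∣ B`. Every elliptic curve over `ℚ` is isomorphic to
exactly one of these. -/
structure IsMinimal (A B : ℤ) : Prop where
  elliptic : 4 * A ^ 3 + 27 * B ^ 2 ≠ 0
  minimal : ∀ p : ℕ, p.Prime → ¬ ((p : ℤ) ^ 4 ∣ A ∧ (p : ℤ) ^ 6 ∣ B)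

/-- The curve `y ^ 2 = x ^ 3 + A x + B` over `ℚ`. -/
def curve (c : ℤ × ℤ) : WeierstrassCurve ℚ := ⟨0, 0, 0, (c.1 : ℚ), (c.2 : ℚ)⟩

/-- The group of the rational points contains `Z/2 x Z/2`. -/
def FullTwo (W : WeierstrassCurve ℚ) : Prop :=
  ∃ f : ZMod 2 × ZMod 2 →+ W.toAffine.Point, Function.Injective f

/-- The absolute value of the minimal discriminant: the least absolute value of the discriminant
of a Weierstrass equation `W'` with integer coefficients which becomes isomorphic to `W` over `ℚ` (by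
a change of the variables `C`). -/
noncomputable def minDisc (W : WeierstrassCurve ℚ) : ℕ :=
  sInf {n : ℕ | ∃ (W' : WeierstrassCurve ℤ) (C : WeierstrassCurve.VariableChange ℚ),
    C • W = W'.map (Int.castRingHom ℚ) ∧ n = W'.Δ.natAbs}

/-- All the elliptic curves over `ℚ` (up to isomorphism) with full rational 2-torsion and minimal
discriminant at most `X` in absolute value. -/
def DiscFam (X : ℕ) : Set (ℤ × ℤ) :=
  {c | IsMinimal c.1 c.2 ∧ FullTwo (curve c) ∧ minDisc (curve c) ≤ X}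

/-- All the elliptic curves over `ℚ` (up to isomorphism) with full rational 2-torsion and height
`max (4 |A|³) (27 B²)` at most `H`. -/
def HeightFam (H : ℕ) : Set (ℤ × ℤ) :=
  {c | IsMinimal c.1 c.2 ∧ FullTwo (curve c) ∧ 4 * |c.1| ^ 3 ≤ H ∧ 27 * c.2 ^ 2 ≤ H}

/-- The set `F` of curves is finite, `Good` holds for them, the sum of `size ^ 2` over `F` is at most
`C` times their number, and the proportion of the curves with `defect ≥ 2 ^ M` is at most
`C / 4 ^ M` for all `M`. -/
structure Bounded (F : Set (ℤ × ℤ)) (C : ℝ) : Prop where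
  finite : F.Finite
  good : ∀ c ∈ F, Good (curve c)
  average : ∑ᶠ c ∈ F, (size (curve c) : ℝ) ^ 2 ≤ C * F.ncard
  tail : ∀ M : ℕ, (4 : ℝ) ^ M * ({c ∈ F | 2 ^ M ≤ defect (curve c)} : Set (ℤ × ℤ)).ncard ≤
    C * F.ncard

/-- the curve `y² = x (x - a) (x - b)` over `ℚ` -/
def E (a b : ℤ) : WeierstrassCurve ℚ := ⟨0, -((a : ℚ) + b), 0, (a : ℚ) * b, 0⟩

/-- all the moments are bounded for the products of the twists of the curves `E (a i) (b i)` by the
values of the polynomials `f i`; the group `D[2]` of a product is the product of those of the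
factors -/
def Twists : Prop := ∀ (r : ℕ) (a b : Fin r → ℤ), (∀ i, a i ≠ 0) → (∀ i, b i ≠ 0) →
  (∀ i, a i ≠ b i) → ∀ (f : Fin r → ℤ[X]) (k : ℕ) (ε : ℝ), 0 < ε → ∃ C : ℝ, ∀ (x : ℤ) (H : ℕ),
    1 ≤ H → |(x : ℝ)| ^ ε ≤ H → ∑ t ∈ (Ioc x (x + H)).filter (fun t => ∀ i, (f i).eval t ≠ 0),
      (∏ i, (size (E (a i * (f i).eval t) (b i * (f i).eval t)) : ℝ)) ^ k ≤ C * H

/-! ### Proofs -/

section tate

variable {W : WeierstrassCurve ℚ}

lemma two_of {c : Sha W} (hc : c ∈ DivTwo W) : c + c = 0 := by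
  obtain ⟨s, h, rfl⟩ := hc
  rw [← h.1]
  exact h.2 0

lemma zero_mem : (0 : Sha W) ∈ DivTwo W := ⟨fun _ => 0, ⟨rfl, fun _ => add_zero _⟩, rfl⟩

/-- the map to `Ш[2]` -/
noncomputable def toTwo (x : DivTwo W) : {c : Sha W // c + c = 0} := ⟨x.1, two_of x.2⟩

lemma toTwo_inj : Function.Injective (toTwo (W := W)) := by
  intro x y h
  have h1 : (toTwo x).1 = (toTwo y).1 := congrArg Subtype.val h
  exact Subtype.ext h1

lemma good (h : Finite {c : Sha W // c + c = 0}) : Good W := by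
  have hfin : Finite (DivTwo W) := Finite.of_injective _ toTwo_inj
  refine ⟨Set.toFinite _, fun c hc => two_of hc, ?_⟩
  constructor
  · intro h1 s hs
    have h2 : Subsingleton (DivTwo W) := (Nat.card_eq_one_iff_unique.1 h1).1
    have h3 : ∀ s : ℕ → Sha W, IsTate W s → s 1 = 0 := by
      intro s hs
      have h4 : (⟨s 1, s, hs, rfl⟩ : DivTwo W) = ⟨0, zero_mem⟩ := Subsingleton.elim _ _
      exact congrArg Subtype.val h4
    have h4 : ∀ (n : ℕ) (s : ℕ → Sha W), IsTate W s → s n = 0 := by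
      intro n
      induction n with
      | zero => exact fun s hs => hs.1
      | succ n ih =>
        intro s hs
        exact ih (fun k => s (k + 1)) ⟨h3 s hs, fun k => hs.2 (k + 1)⟩
    funext n
    exact h4 n s hs
  · intro h1
    refine Nat.card_eq_one_iff_unique.2 ⟨⟨fun x y => ?_⟩, ⟨⟨0, zero_mem⟩⟩⟩
    have h2 : ∀ x : DivTwo W, x.1 = 0 := by
      intro x
      obtain ⟨s, hs, hx⟩ := x.2
      rw [← hx, h1 s hs]
      rfl
    exact Subtype.ext ((h2 x).trans (h2 y).symm)

lemma defect_le (h : Finite {c : Sha W // c + c = 0}) :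
    defect W ≤ Nat.card {c : Sha W // c + c = 0} :=
  Nat.card_le_card_of_injective _ toTwo_inj

lemma size_le (h : Finite {c : Sha W // c + c = 0}) : size W ≤ Run7.h318.SH.RRW W :=
  Nat.mul_le_mul_left _ (defect_le h)

lemma defect_le_size : defect W ≤ size W := Nat.le_mul_of_pos_left _ (by positivity)

end tate

section fam

lemma rel_ne {c t : ℤ × ℤ} (h : Run7.h69.UH.Rel c t) : 4 * c.1 ^ 3 + 27 * c.2 ^ 2 ≠ 0 := by
  rw [Run7.h318.DI.rel_disc h]
  obtain ⟨_, _, _, _, n1, n2, n3⟩ := h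
  exact neg_ne_zero.2 (pow_ne_zero 2 (mul_ne_zero (mul_ne_zero n1 n2) (sub_ne_zero.2 n3)))

lemma fin_of_rel {c t : ℤ × ℤ} (h : Run7.h69.UH.Rel c t) :
    Finite {x : Sha (curve c) // x + x = 0} :=
  (Run7.h318.SF.rel_rrw h (rel_ne h)).1

lemma size_rel {c t : ℤ × ℤ} (h : Run7.h69.UH.Rel c t) :
    (size (curve c) : ℝ) ^ 2 ≤ Run7.h318.SF.RR t := by
  have h1 : size (curve c) ≤ Run7.h318.SH.RR t.1 t.2 :=
    (size_le (fin_of_rel h)).trans (Run7.h318.SF.rel_rrw h (rel_ne h)).2
  unfold Run7.h318.SF.RR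
  exact pow_le_pow_left₀ (Nat.cast_nonneg _) (by exact_mod_cast h1) 2

lemma bounded_of {F : Set (ℤ × ℤ)} {C : ℝ} (hfin : F.Finite) (hgood : ∀ c ∈ F, Good (curve c))
    (h : ∑ c ∈ hfin.toFinset, (size (curve c) : ℝ) ^ 2 ≤ C * F.ncard) : Bounded F C := by
  refine ⟨hfin, hgood, ?_, fun M => le_trans ?_ h⟩
  · rw [finsum_mem_eq_finite_toFinset_sum _ hfin]
    exact h
  · have hfin' : ({c ∈ F | 2 ^ M ≤ defect (curve c)} : Set (ℤ × ℤ)).Finite :=
      hfin.subset fun c hc => hc.1
    rw [Set.ncard_eq_toFinset_card _ hfin']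
    calc (4 : ℝ) ^ M * (hfin'.toFinset.card : ℝ)
        = ∑ c ∈ hfin'.toFinset, (4 : ℝ) ^ M := by rw [sum_const, nsmul_eq_mul, mul_comm]
      _ ≤ ∑ c ∈ hfin'.toFinset, (size (curve c) : ℝ) ^ 2 := by
        apply sum_le_sum
        intro c hc
        rw [Set.Finite.mem_toFinset] at hc
        have h1 : (2 : ℝ) ^ M ≤ (size (curve c) : ℝ) := by
          exact_mod_cast hc.2.trans defect_le_size
        calc (4 : ℝ) ^ M = ((2 : ℝ) ^ M) ^ 2 := by
              rw [← pow_mul, mul_comm, pow_mul]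
              norm_num
          _ ≤ _ := pow_le_pow_left₀ (by positivity) h1 2
      _ ≤ _ := by
        apply sum_le_sum_of_subset_of_nonneg
        · intro c hc
          rw [Set.Finite.mem_toFinset] at hc ⊢
          exact hc.1
        · intro c _ _
          positivity

lemma hasT_iff (c : ℤ × ℤ) : Pool.Agent.W307.RT.HasT 2 (Pool.Agent.W307.RT.Sh c.1 c.2) ↔
    FullTwo (curve c) := Pool.Agent.W307.RT.tors_iff

lemma Disc_eq (X : ℕ) : DiscFam X = Run7.h318.DI.Fm X := by
  ext c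
  constructor
  · rintro ⟨⟨h1, h2⟩, h3, h4⟩
    exact ⟨h1, h2, (hasT_iff c).2 h3, h4⟩
  · rintro ⟨h1, h2, h3, h4⟩
    exact ⟨⟨h1, h2⟩, (hasT_iff c).1 h3, h4⟩

lemma Height_eq (H : ℕ) : HeightFam H = (Pool.Agent.W307.RT.Cv 2 H : Set (ℤ × ℤ)) := by
  ext c
  unfold Pool.Agent.W307.RT.Cv
  rw [mem_coe, mem_filter, mem_product, mem_Icc, mem_Icc]
  constructor
  · rintro ⟨⟨h1, h2⟩, h3, h4, h5⟩
    have a1 := Pool.Agent.W29.RT.abs_le_cube c.1
    have a2 := Pool.Agent.W29.RT.abs_le_sq c.2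
    have a3 := neg_abs_le c.1
    have a4 := le_abs_self c.1
    have a5 := neg_abs_le c.2
    have a6 := le_abs_self c.2
    have a7 : 0 ≤ |c.1| ^ 3 := by positivity
    have a8 : 0 ≤ c.2 ^ 2 := by positivity
    exact ⟨⟨⟨by linarith, by linarith⟩, ⟨by linarith, by linarith⟩⟩, h1, h4, h5, h2,
      (hasT_iff c).2 h3⟩
  · rintro ⟨-, h1, h4, h5, h2, h3⟩
    exact ⟨⟨h1, h2⟩, (hasT_iff c).1 h3, h4, h5⟩

lemma byDisc : ∃ C : ℝ, ∀ X : ℕ, Bounded (DiscFam X) C := by
  obtain ⟨C, hC0, hC⟩ := Run7.h318.SF.box 9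
  obtain ⟨C', h⟩ := Run7.h318.DI.average (R := Run7.h318.SF.RR) Run7.h318.SF.RR_nonneg hC0 hC
    (w := fun c => (size (curve c) : ℝ) ^ 2) (fun c t hr => size_rel hr)
  refine ⟨C', fun X => ?_⟩
  have hfin : (DiscFam X).Finite := by
    rw [Disc_eq]
    exact Run7.h318.DI.Fm_finite X
  have hS : hfin.toFinset = Run7.h318.DI.FS X := by
    ext c
    rw [Set.Finite.mem_toFinset, Run7.h318.DI.mem_FS, Disc_eq]
  refine bounded_of hfin (fun c hc => ?_) ?_
  · rw [Disc_eq] at hc
    exact good (fin_of_rel (Run7.h318.DI.G_spec hc).1)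
  · rw [Set.ncard_eq_toFinset_card _ hfin, hS]
    exact h X

lemma byHeight : ∃ C : ℝ, ∀ H : ℕ, Bounded (HeightFam H) C := by
  obtain ⟨C, hC⟩ := Run7.h318.SF.height
  refine ⟨C, fun H => ?_⟩
  have hfin : (HeightFam H).Finite := by
    rw [Height_eq]
    exact (Pool.Agent.W307.RT.Cv 2 H).finite_toSet
  have hS : hfin.toFinset = Pool.Agent.W307.RT.Cv 2 H := by
    ext c
    rw [Set.Finite.mem_toFinset, Height_eq, mem_coe]
  have hrel : ∀ c ∈ Pool.Agent.W307.RT.Cv 2 H, Finite {x : Sha (curve c) // x + x = 0} :=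
    fun c hc => fin_of_rel (Run7.h69.UH.F_spec hc)
  refine bounded_of hfin (fun c hc => ?_) ?_
  · rw [Height_eq, mem_coe] at hc
    exact good (hrel c hc)
  · rw [Set.ncard_eq_toFinset_card _ hfin, hS]
    refine le_trans (sum_le_sum fun c hc => ?_) (hC H)
    exact pow_le_pow_left₀ (Nat.cast_nonneg _) (by exact_mod_cast size_le (hrel c hc)) 2

lemma nat_of {ε : ℝ} (hε : 0 < ε) {x : ℤ} {H : ℕ} (hH : 1 ≤ H) (hx : |(x : ℝ)| ^ ε ≤ H) :
    x.natAbs ≤ H ^ ⌈1 / ε⌉₊ := by
  have hHr : (1 : ℝ) ≤ H := by exact_mod_cast hH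
  have h2 : |(x : ℝ)| ≤ (H : ℝ) ^ (⌈1 / ε⌉₊ : ℝ) := by
    calc |(x : ℝ)| = (|(x : ℝ)| ^ ε) ^ (1 / ε) := by
          rw [← Real.rpow_mul (abs_nonneg _), mul_one_div_cancel hε.ne', Real.rpow_one]
      _ ≤ (H : ℝ) ^ (1 / ε) := Real.rpow_le_rpow (by positivity) hx (by positivity)
      _ ≤ (H : ℝ) ^ (⌈1 / ε⌉₊ : ℝ) := Real.rpow_le_rpow_of_exponent_le hHr (Nat.le_ceil _)
  rw [Real.rpow_natCast] at h2
  have h3 : ((x.natAbs : ℕ) : ℝ) = |(x : ℝ)| := by
    rw [Nat.cast_natAbs, Int.cast_abs]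
  have h4 : ((x.natAbs : ℕ) : ℝ) ≤ ((H ^ ⌈1 / ε⌉₊ : ℕ) : ℝ) := by
    rw [h3]
    push_cast
    exact h2
  exact_mod_cast h4

lemma fin_E {a b : ℤ} (ha : a ≠ 0) (hb : b ≠ 0) (hab : a ≠ b) :
    Finite {x : Sha (E a b) // x + x = 0} := Run7.h318.SH.fin_EAB ha hb hab

lemma twists : Twists := by
  intro r a b ha hb hab f k ε hε
  obtain ⟨C, hC⟩ := Run7.h318.SF.PR.prods a b ha hb hab f k ⌈1 / ε⌉₊
  refine ⟨C, fun x H hH hx => le_trans (sum_le_sum fun t ht => ?_) (hC x H hH (nat_of hε hH hx))⟩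
  rw [mem_filter] at ht
  refine pow_le_pow_left₀ (prod_nonneg fun i _ => Nat.cast_nonneg _)
    (prod_le_prod (fun i _ => Nat.cast_nonneg _) fun i _ => ?_) k
  have h1 := fin_E (mul_ne_zero (ha i) (ht.2 i)) (mul_ne_zero (hb i) (ht.2 i))
    (fun h => hab i (mul_right_cancel₀ (ht.2 i) h))
  have h2 : size (E (a i * (f i).eval t) (b i * (f i).eval t)) ≤
      Run7.h318.SH.RR (a i * (f i).eval t) (b i * (f i).eval t) := size_le h1
  show (size (E (a i * (f i).eval t) (b i * (f i).eval t)) : ℝ) ≤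
    ((Run7.h318.SH.RR (a i * (f i).eval t) (b i * (f i).eval t) : ℕ) : ℝ)
  exact_mod_cast h2

end fam

/-- **Theorem.** For every elliptic curve over `ℚ` with full rational 2-torsion `D[2]` is finite (and the
other properties `Good` hold). The average of `size ^ 2` is bounded in the ordering by height and in the ordering by
the minimal discriminant; the numbers of curves tend to infinity, and the number in the ordering by the
minimal discriminant is of the exact order `X ^ (1 / 3)`. All moments are bounded for products of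
polynomial twists. -/
theorem result :
    (∀ a b : ℤ, a ≠ 0 → b ≠ 0 → a ≠ b → Good (E a b)) ∧
    (∃ C : ℝ, ∀ H : ℕ, Bounded (HeightFam H) C) ∧
    (∃ C : ℝ, ∀ X : ℕ, Bounded (DiscFam X) C) ∧
    Tendsto (fun H : ℕ => (HeightFam H).ncard) atTop atTop ∧
    (∃ (c C : ℝ) (X₀ : ℕ), 0 < c ∧ ∀ X : ℕ, X₀ ≤ X →
      c * (X : ℝ) ^ (1 / 3 : ℝ) ≤ (DiscFam X).ncard ∧
      ((DiscFam X).ncard : ℝ) ≤ C * (X : ℝ) ^ (1 / 3 : ℝ)) ∧
    Twists := by
  refine ⟨fun a b ha hb hab => good (fin_E ha hb hab), byHeight, byDisc, ?_, ?_, twists⟩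
  · have h : ∀ H : ℕ, (HeightFam H).ncard = (Pool.Agent.W307.RT.Cv 2 H).card := by
      intro H
      rw [Height_eq, Set.ncard_coe_finset]
    simp only [h]
    exact Pool.Agent.W307.RT.tendsto_of_low Run7.h69.UH.low2
  · obtain ⟨C, hC0, hC⟩ := Run7.h69.UF.box 9
    obtain ⟨c, C', hc, h⟩ := Run7.h318.DI.number hC0 hC
    refine ⟨c, C', 7 ^ 24, hc, fun X hX => ?_⟩
    have hcard : (DiscFam X).ncard = (Run7.h318.DI.FS X).card := by
      have hfin : (DiscFam X).Finite := by
        rw [Disc_eq]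
        exact Run7.h318.DI.Fm_finite X
      rw [Set.ncard_eq_toFinset_card _ hfin]
      congr 1
      ext c
      rw [Set.Finite.mem_toFinset, Run7.h318.DI.mem_FS, Disc_eq]
    rw [hcard]
    exact h X hX

end Pool.Agent.Results.MP_f80667_ag.DivisiblePartOfShaOnAverage
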