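import Pool.Agent.Run7.h316.UN.Ors
import Pool.Agent.Results.MP_f80667_ag.RandomOrbits

/-!
# Zero-cycles of degree zero on twists of cyclic coverings by sums of primes

Let `b y ^ 2 = ∏ k, G k (z, w)` be a hyperelliptic curve over `ℚ`, where the `G k` are the homogenisations of
polynomials `g k` with integral coefficients, of even degrees, pairwise coprime, and let `h` be a polynomial
with integral coefficients, coprime to the `g k`, `H` its homogenisation (`Admissible`). For an integer `a` and
an even `m ∣ deg h` let

  `C a : b y ^ 2 = ∏ k, G k (z, w)`, `a x ^ m = H (z, w)`.

`Good b g h a` is the property of `a` of the starting files `DegreeZeroComplexOfTwists` (helper925; 100% of the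
squarefree integers) and `RandomOrbits` (helper676): every adelic zero-cycle of even degree on `C a` which is
orthogonal to the quaternion algebras `(G k, e)` has the values of a persistent class, for all even
`m ∣ deg h`; if the zeros of `h` are one or two rational numbers (and the value there is a square), it has the
same values as a zero-cycle of degree zero over `ℚ`; and it has trivial values in the two cases of these files.

The twisting parameter is the value `a = λ(c)` of a linear form at the vectors of a family. Let `c w`, `w ∈ Ω`,
be a family of integral vectors and `S M ⊂ Ω` finite sets; `Usually`: for ALL linear forms `λ` (in the given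
set) and ALL admissible families `(b, g, h)` the proportion of the `w ∈ S M` for which `λ(c w)` is not good
tends to zero, `M → ∞`.

**Theorem.** (A) For the linear forms `λ ≠ 0` all spread families (`Pool.Agent.Run7.h316.UN.Spread`) have the
property `Usually`: the proportion of the vectors in a given class modulo `q` is at most `C q ^ (-r) + o(1)` for
all `q` prime to some number. (Random orbits, metric sequences and generalised polynomials: starting files.)

(B) PRIMES. For the linear forms `λ` with at least two nonzero coefficients the property `Usually` is
unit-robust (`Pool.Agent.Run7.h316.UN.UnitRobust`): it holds for the vectors of prime numbers `≤ M`, and for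
all families which are spread over the vectors of units: the proportion of the vectors in a given class modulo
`q` is at most `C φ(q) ^ (-r) + o(1)`, and almost no vectors have a coordinate which is not prime to `q`, for
all `q` prime to some number. For example for almost all pairs of prime numbers `p`, `p'` up to `M` the twist
by `a = p - p'` is good.

Two coefficients are necessary: a prime of a given Frobenius class never divides a single prime number `p`
exactly once, if `p` is not itself in this class.

Proof. `Good` follows if a prime of each of finitely many Frobenius classes divides `a` exactly once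
(helper925, helper676). The vectors of primes are not dominated by Haar measure: the proportion of the vectors
in a class of units modulo `q` is `φ(q) ^ (-r)`, which is `(q / φ(q)) ^ r` times as large as it should be,
and here the relevant local conditions have a density of about `1 / p`, so that the numbers `q` which are
needed are such that `q / φ(q)` tends to infinity. Therefore the local conditions are counted on the vectors of
units (`Pool.Agent.Run7.h316.UN.lin_count`: the value of a linear form with two coefficients which are units is
in a given class modulo `p ^ 2` divisible by `p` for at least the proportion `1 / (2 p ^ 2)` of them); the set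
of the vectors which are not good is unit null (`UnitNull`), and families which are spread over the vectors
of units avoid unit null sets. Vectors of primes: the prime number theorem for arithmetic progressions
(helper923).
-/

set_option autoImplicit false

namespace Pool.Agent.Results.MP_f80667_ag.PrimeTwists

open Polynomial
open Pool.Agent.Run7.h316.UN (Spread UnitRobust TwoNonzero robust_of_hits)
open Pool.Agent.Results.MP_f80667_ag.DegreeZeroComplexOfTwists (Admissible)
open Pool.Agent.Results.MP_f80667_ag.RandomOrbits (Good good_of)

/-- For all linear forms `λ` in `L` and all admissible families `(b, g, h)` the proportion of the `w` in `S M`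
for which `λ(c w)` is not good tends to zero, `M → ∞`. -/
def Usually {ι : Type} [Fintype ι] (L : (ι → ℤ) → Prop) (Ω : Type) (S : ℕ → Finset Ω)
    (c : Ω → ι → ℤ) : Prop :=
  ∀ lam : ι → ℤ, L lam → ∀ (r : ℕ) (b : ℤ) (g : Fin r → ℤ[X]) (h : ℤ[X]), Admissible b g h →
    ∀ ε : ℝ, 0 < ε → ∃ M₀ : ℕ, ∀ M : ℕ, M₀ ≤ M →
      (({w : Ω | w ∈ S M ∧ ¬ Good b g h (∑ i, lam i * c w i)}.ncard : ℕ) : ℝ) ≤ ε * (S M).card

/-- **Zero-cycles of degree zero on twists of cyclic coverings by values of linear forms at vectors of
primes, at families which are spread over the vectors of units, and at spread families.** -/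
theorem result (ι : Type) [Fintype ι] [DecidableEq ι] [Nonempty ι] :
    (∀ (Ω : Type) (S : ℕ → Finset Ω) (c : Ω → ι → ℤ), Spread S c →
      Usually (fun lam => lam ≠ 0) Ω S c) ∧
      UnitRobust (Usually (ι := ι) TwoNonzero) := by
  classical
  have hcp := Pool.Agent.N676.OR.countable_poly
  have key := robust_of_hits (ι := ι) (𝔇 := Σ r : ℕ, ℤ × (Fin r → ℤ[X]) × ℤ[X])
    (fun D a => Admissible D.2.1 D.2.2.1 D.2.2.2 → Good D.2.1 D.2.2.1 D.2.2.2 a) (by
    rintro ⟨r, b, g, h⟩
    by_cases hA : Admissible b g h
    · obtain ⟨PP, h1, h2, h3⟩ := good_of hA
      exact ⟨PP, h1, h2, fun a ha _ => h3 a ha⟩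
    · exact ⟨∅, Set.finite_empty, fun P hP => absurd hP (Set.notMem_empty _),
        fun a _ hA' => absurd hA' hA⟩)
  have hconv : ∀ (L : (ι → ℤ) → Prop) (Ω : Type) (S : ℕ → Finset Ω) (c : Ω → ι → ℤ),
      (∀ lam : ι → ℤ, L lam → ∀ D : Σ r : ℕ, ℤ × (Fin r → ℤ[X]) × ℤ[X],
        Pool.Agent.Run7.h316.EQ.Rare S c {x | ¬ (Admissible D.2.1 D.2.2.1 D.2.2.2 →
          Good D.2.1 D.2.2.1 D.2.2.2 (∑ i, lam i * x i))}) → Usually L Ω S c := by
    intro L Ω S c hR lam hlam r b g h hA ε hε
    obtain ⟨M₀, h1⟩ := hR lam hlam ⟨r, b, g, h⟩ ε hε
    refine ⟨M₀, fun M hM => le_trans ?_ (h1 M hM)⟩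
    refine Nat.cast_le.2 (Set.ncard_le_ncard ?_ ((S M).finite_toSet.subset fun w hw => hw.1))
    rintro w ⟨hw1, hw2⟩
    exact ⟨hw1, fun hgood => hw2 (hgood hA)⟩
  exact ⟨fun Ω S c hc => hconv _ Ω S c (key.1.1 Ω S c hc), key.2.imp (hconv _)⟩

end Pool.Agent.Results.MP_f80667_ag.PrimeTwists
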