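import Pool.Agent.Run7.h972.AW.Base
import Pool.Agent.Results.MP_f80667_ag.RandomOrbits

/-!
# Zero-cycles of even degree on twists of cyclic coverings along random orbits of affine maps

The starting result `RandomOrbits` (whose definitions are used) is about the curves

  `C a : b y ^ 2 = ∏ k, G k (z, w)`, `a x ^ m = H (z, w)`,

`a = λ(c)`, for the vectors `c` of the random orbit of a vector `v ≠ 0` under matrices of determinant one
which generate `SL_r(ℤ/q)`, `r ≥ 2`. Here the maps are affine and need not be invertible.

Let `x ↦ A_j x + b_j`, `j ≤ m`, be a finite family of affine maps of `ℤ^ι` (`AffineWalk`) which for all `q`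
prime to some `M` are permutations of `(ℤ/q)^ι` and generate a transitive group. The determinants of the
`A_j` are arbitrary nonzero integers. For instance, for `ι` a point: any finite family of maps
`x ↦ a_j x + b_j` of `ℤ`, `a_j ≠ 0`, two of which do not commute (`Run7.h972.AW.line_walk`), such as
`x ↦ 10 x + d` for the `d` in a set of at least two digits (the orbit of `0` are the initial segments of
a random decimal number with digits in this set) or `x ↦ 2 x + 1`, `x ↦ 3 x`; in general, `x ↦ A x + d`
(digits in a matrix base, random walks on `ℤ^ι` for `A = 1`). For independent and uniformly distributed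
indices `w 0, w 1, …` let `c_0 = v`, `c_(t+1) = A_(w t) c_t + b_(w t)`.

**Theorem.** For almost every word `w` there is ONE set `E` of times of density zero such that for ALL
vectors `v`, ALL linear forms `λ ≠ 0` and ALL families `(b, g, h)` the integer `a = λ(c_t)` has the
property `Good` (statements on all orthogonal adelic zero-cycles of even degree on `C a`: their values are
those of persistent classes, or of zero-cycles of degree zero over `ℚ`, or trivial) for all but finitely
many `t` outside `E`. For the curves `y² = (z² + 51) (z² - 1)`, `a x ^ m = (z² + 1) (z² - 17) (z² + 17)`,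
`m = 2, 6`, all these values are trivial (`AllTrivial`).

The proof: the set of the `c` for which `λ(c)` does not have the property is pronull (part (1) of the
starting result: its image in `(ℤ/q)^ι` is small for suitable `q` prime to any given number), and by the
ergodic theorem for walks on finite groups (starting library, `Pool.Agent.N24.RW`), applied to the group of
affine permutations of `(ℤ/q)^ι`, the orbit is in a pronull set only at times of density zero
(`Run7.h972.AW`); there are only countably many conditions.
-/

set_option autoImplicit false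

namespace Pool.Agent.Results.MP_f80667_ag.RandomAffineOrbits

open Polynomial MeasureTheory Pool.Agent.R925.FD Pool.Agent.R925.ZC
open Pool.Agent.N24.RW (words)
open Pool.Agent.N676.OR (DensityZero)
open Pool.Agent.Results.MP_f80667_ag.DegreeZeroComplexOfTwists (Admissible)
open Pool.Agent.Results.MP_f80667_ag.RandomOrbits (Good AllTrivial adm_ex ex_trivial)
open Run7.h972.AW

theorem result (ι : Type) [Fintype ι] [DecidableEq ι] (W : AffineWalk ι) :
    ∀ᵐ w ∂(words W.m), ∃ E : Set ℕ, DensityZero E ∧ ∀ v lam : ι → ℤ, lam ≠ 0 →
      (∀ (r : ℕ) (b : ℤ) (g : Fin r → ℤ[X]) (h : ℤ[X]), Admissible b g h →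
        {t : ℕ | t ∉ E ∧ ¬ Good b g h (∑ i, lam i * aorb W v w t i)}.Finite) ∧
      {t : ℕ | t ∉ E ∧ ¬ AllTrivial 1 exg exh (∑ i, lam i * aorb W v w t i)}.Finite := by
  classical
  have hcp := Pool.Agent.N676.OR.countable_poly
  have key := one_set_lin W (κ := Σ r : ℕ, ℤ × (Fin r → ℤ[X]) × ℤ[X])
    (fun D a => Admissible D.2.1 D.2.2.1 D.2.2.2 → Good D.2.1 D.2.2.1 D.2.2.2 a)
    (fun lam hlam D => Pool.Agent.N24.RW.Clo.mono (fun c hc => by
      have h1 : ¬ (Admissible D.2.1 D.2.2.1 D.2.2.2 → Good D.2.1 D.2.2.1 D.2.2.2 _) := hc
      rw [Classical.not_imp] at h1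
      exact h1) (proNull_imp (fun hA => Pool.Agent.Results.MP_f80667_ag.RandomOrbits.result.1
        D.1 D.2.1 D.2.2.1 D.2.2.2 hA ι lam hlam)))
  filter_upwards [key] with w hw
  obtain ⟨E, hE, hall⟩ := hw
  have hgen : ∀ v lam : ι → ℤ, lam ≠ 0 → ∀ (r : ℕ) (b : ℤ) (g : Fin r → ℤ[X]) (h : ℤ[X]),
      Admissible b g h → {t : ℕ | t ∉ E ∧ ¬ Good b g h (∑ i, lam i * aorb W v w t i)}.Finite := by
    intro v lam hlam r b g h hA
    refine (hall v lam hlam ⟨r, b, g, h⟩).subset ?_
    rintro t ⟨ht, ht'⟩
    exact ⟨ht, fun hgood => ht' (hgood hA)⟩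
  refine ⟨E, hE, fun v lam hlam => ⟨hgen v lam hlam, ?_⟩⟩
  refine (hgen v lam hlam 2 1 exg exh adm_ex).subset ?_
  rintro t ⟨ht, hno⟩
  exact ⟨ht, fun hgood => hno (ex_trivial hgood)⟩

end Pool.Agent.Results.MP_f80667_ag.RandomAffineOrbits
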