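import Pool.Agent.Results.MP_f80667_ag.RandomOrbits
import Pool.Agent.Run7.h823.WF.PN
import Pool.Agent.Run7.h823.WF.Ex

/-!
# Zero-cycles of degree zero on twists of cyclic coverings by the members of sparse families of residues: the first `m ^ ε`
# terms of linear recurrences modulo `m`

Let `b y ^ 2 = ∏ k, G k (z, w)` be a hyperelliptic curve `D` over `ℚ`, where the `G k` are the homogenisations of
polynomials `g k` with integral coefficients, of even degrees, pairwise coprime, and let `h` be a polynomial with integral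
coefficients, coprime to the `g k`, `H` its homogenisation (`Admissible`). For an integer `a` and an even
`m ∣ deg h` let

  `C a : b y ^ 2 = ∏ k, G k (z, w)`, `a x ^ m = H (z, w)`.

The property `Good b g h a` (of the starting file `RandomOrbits`) is: for all even `m ∣ deg h` and every adelic zero-cycle
of degree zero (or of even degree) on `C a` which is orthogonal to the quaternion algebras `(G k, e)` the values of the
`G k` are those of a persistent family of squarefree integers; if the zeros of `h` are one or two rational numbers `α₁`,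
`α₂` and `b ∏ g k (α₁)` is a square, they are the values of a zero-cycle of degree zero over `ℚ`; in two further cases they
are trivial.

Let `y_i`, `i ∈ s`, be a finite family of vectors of residues modulo an integer `q` with small Fourier coefficients: for all
`h ≠ 0` modulo `q` we have `|∑ e(h·y_i / q)| ≤ δ (log q) ^ (-r) |s|`, where `r` is the number of the coordinates, and let
`a_i = ℓ(c₀ + y_i)` (least residues), for a linear form `ℓ ≠ 0` with integral coefficients and any integral vector `c₀`.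

**Theorem.** For every finite set `F` of admissible families `(b, g, h)`, all `B` and `ε > 0` there is `δ > 0` such that for
all `q ≥ 1 / δ`, ALL such families of vectors and ALL `c₀` the following holds for all but `ε |s|` of the `i`,
SIMULTANEOUSLY for ALL `(b, g, h) ∈ F` and ALL linear forms `ℓ ≠ 0` with coefficients at most `B` in
absolute value: the twist by `a_i` has the property `Good`.

The family can be very sparse: examples (of vectors with `r` coordinates) are

* the values `(u_1(n), …, u_r(n))`, `n < N`, of `r` linear recurrences modulo a prime `m` with linearly independent vectors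
  of coefficients, as soon as `N ≥ m ^ ε` and the roots and their quotients have orders `≥ m ^ ε`;
* the vectors `(x_1 b_1 ^ n, …, x_r b_r ^ n)`, `n < N`, `N ≥ m ^ ε`, for fixed different integers `b_j ≥ 2` and
  all `x_j ≠ 0`, modulo all but `C X ^ ε` of the primes `m ≤ X`.

In these examples only `m ^ ε` of the `m ^ r` vectors of the box occur.

From Mathlib: `ZMod.stdAddChar`: the additive character `j ↦ exp (2 π i j / q)` of the integers modulo `q`; `ZMod.val`: the
least residue.

The proof: the exceptional vectors form a pronull set (starting file `RandomOrbits`); families with small Fourier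
coefficients rarely meet pronull sets, since they are equidistributed modulo every fixed integer
(`Pool.Agent.Run7.h823.WF.PN`); the Fourier coefficients of short recurrences are estimated by the method of
Bourgain, Glibichuk and Konyagin (`Pool.Agent.Run7.h823.BK`).
-/

set_option autoImplicit false

namespace Pool.Agent.Results.MP_f80667_ag.ResidueVectors

open Polynomial
open Pool.Agent.Results.MP_f80667_ag.DegreeZeroComplexOfTwists (Admissible)
open Pool.Agent.Results.MP_f80667_ag.RandomOrbits (Good)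
open Finset (range)

/-- The Fourier coefficients of the vectors of residues `y i`, `i ∈ s`, modulo `q` at the nonzero frequencies are at most
`η` times the number of the vectors: `|∑ i ∈ s, e(h·y_i / q)| ≤ η |s|` for all vectors `h ≠ 0` modulo `q`. -/
def Flat {τ ι : Type} [Fintype ι] (q : ℕ) [NeZero q] (η : ℝ) (s : Finset τ) (y : τ → ι → ZMod q) : Prop :=
  ∀ h : ι → ZMod q, h ≠ 0 → ‖∑ i ∈ s, (ZMod.stdAddChar (∑ j, h j * y i j) : ℂ)‖ ≤ η * s.card

/-- The integral vector `c₀ + y_i`, with the least residues `0 ≤ y_i < q`. -/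
def vec {τ ι : Type} {q : ℕ} (y : τ → ι → ZMod q) (c₀ : ι → ℤ) (i : τ) (j : ι) : ℤ := c₀ j + ((y i j).val : ℕ)

/-- **Theorem.** (1) For every finite set `F` of admissible families `(b, g, h)`, all `r`, `B` and `ε > 0` there is `δ > 0`
such that for all `q ≥ 1 / δ`, all families of vectors of residues modulo `q` with Fourier coefficients at most
`δ (log q) ^ (-r) |s|` at the nonzero frequencies and all integral vectors `c₀`: for all but `ε |s|` of the members
`c = c₀ + y_i`, ALL `(b, g, h) ∈ F` and ALL linear forms `ℓ ≠ 0` with coefficients at most `B` the twist by `a = ℓ(c)` has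
the property `Good`.

(2) Examples: short linear recurrences. (3) Examples: the first powers of fixed integers, modulo all but `C X ^ ε` of the
primes `m ≤ X`. (The Fourier coefficients are even at most `m ^ (-β) N`.) -/
theorem result :
    (∀ (k : ℕ) (F : Set (ℤ × (Fin k → ℤ[X]) × ℤ[X])), F.Finite → (∀ D ∈ F, Admissible D.1 D.2.1 D.2.2) →
      ∀ (r B : ℕ) (ε : ℝ), 0 < ε → ∃ δ : ℝ, 0 < δ ∧ ∀ (q : ℕ) [NeZero q], 1 / δ ≤ q →
      ∀ (τ : Type) (s : Finset τ) (y : τ → Fin r → ZMod q), Flat q (δ / Real.log q ^ r) s y → ∀ c₀ : Fin r → ℤ,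
        ({i : τ | i ∈ s ∧ ¬ ∀ D ∈ F, ∀ lam : Fin r → ℤ, lam ≠ 0 → (∀ j, |lam j| ≤ B) →
          Good D.1 D.2.1 D.2.2 (∑ j, lam j * vec y c₀ i j)}.ncard : ℝ) ≤ ε * s.card) ∧
    (∀ (k : ℕ) (ε : ℝ), 0 < ε → ∃ β : ℝ, 0 < β ∧ ∃ m₀ : ℕ, ∀ (m : ℕ) [Fact m.Prime], m₀ ≤ m →
      ∀ (ι : Type) [Fintype ι] (c : ι → Fin k → ZMod m) (g : Fin k → (ZMod m)ˣ) (N : ℕ), LinearIndependent (ZMod m) c →
      (∀ i, (m : ℝ) ^ ε ≤ orderOf (g i)) → (∀ i j, i ≠ j → (m : ℝ) ^ ε ≤ orderOf (g i / g j)) → (m : ℝ) ^ ε ≤ N →
      Flat m ((m : ℝ) ^ (-β)) (range N) (fun n j => ∑ i, c j i * (g i : ZMod m) ^ n)) ∧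
    (∀ (ι : Type) [Fintype ι] (ε : ℝ), 0 < ε → ∃ β : ℝ, 0 < β ∧ ∀ b : ι → ℕ, (∀ j, 2 ≤ b j) → Function.Injective b →
      ∃ C : ℝ, ∀ X : ℕ, 1 ≤ X → ∀ Q : Finset ℕ,
      (∀ m ∈ Q, m ≤ X ∧ ∃ _ : Fact m.Prime, ¬ ∀ N : ℕ, (m : ℝ) ^ ε ≤ N → ∀ x : ι → ZMod m, (∀ j, x j ≠ 0) →
        Flat m ((m : ℝ) ^ (-β)) (range N) (fun n j => x j * (b j : ZMod m) ^ n)) →
      (Q.card : ℝ) ≤ C * (X : ℝ) ^ ε) := by
  refine ⟨?_, fun k ε hε => Pool.Agent.Run7.h823.WF.flat_rec' k hε,
    fun ι _ ε hε => Pool.Agent.Run7.h823.WF.flat_pow' ι hε⟩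
  intro k F hF hA r B ε hε
  have h1 := Pool.Agent.Run7.h823.WF.PN.proNull_union (ι := Fin r)
    (F := F ×ˢ {lam : Fin r → ℤ | (∀ j, |lam j| ≤ B) ∧ lam ≠ 0})
    (hF.prod ((Pool.Agent.Run7.h823.WF.PN.finite_vec (Fin r) B).subset fun a ha => ha.1))
    (fun D => {c : Fin r → ℤ | ¬ Good D.1.1 D.1.2.1 D.1.2.2 (∑ j, D.2 j * c j)})
    (fun D hD => RandomOrbits.result.1 k D.1.1 D.1.2.1 D.1.2.2 (hA D.1 hD.1) (Fin r) D.2 hD.2.2)
  obtain ⟨δ, hδ, h2⟩ := Pool.Agent.Run7.h823.WF.PN.rare _ h1 hε
  refine ⟨δ, hδ, fun q _ hq τ s y hf c₀ => ?_⟩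
  have h3 := h2 τ q hq s y (by
    rw [Fintype.card_fin]
    exact hf) c₀
  refine le_trans (Nat.cast_le.2 (Set.ncard_le_ncard ?_ ((Finset.finite_toSet s).subset fun i hi => hi.1))) h3
  rintro i ⟨hi, hno⟩
  refine ⟨hi, ?_⟩
  by_contra hcon
  apply hno
  intro D hD lam hl hlB
  by_contra hE
  exact hcon ⟨(D, lam), ⟨hD, hlB, hl⟩, hE⟩

end Pool.Agent.Results.MP_f80667_ag.ResidueVectors
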